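import Pool.Agent.Helper886.Grig.Profinite

/-!
# The Grigorchuk group has a strictly larger overgroup, in its profinite completion, with the
congruence subgroup property

Let `y = (1, ((z, z), (1, y)))` with `z = (a c y) ^ 4`; this is the limit of the approximations
`y_0 = 1`, `y_{k+1} = (1, ((z_k, z_k), (1, y_k)))`, `z_k = (a c y_k) ^ 4`, all of which lie in the
normal closure `K` of `(a b) ^ 2` in the Grigorchuk group `Γ`.  The element `y` commutes with
`b, c, d`, has order `2`, and, with `s = z c y`, satisfies `y = (s b s d) ^ 4`.  As `b` is central
modulo the normal closure `N` of `K` in `Δ = ⟨Γ, y⟩` and `b d = c`, this gives `y ∈ N`, and then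
also `z ∈ N`.  So `y` lies in the product of `8` copies of `N` at the third level; by iteration `N`
is contained in `K` times the product of the copies of `N` at level `3 k`, and the latter is
contained in the normal closure in `Δ` of the product `K_{3k}` of the copies of `K` at level
`3 k`.  Hence `Δ` is generated by `Γ` and the normal closure of `K_{3k}` in `Δ`, for every `k`.
Every subgroup of finite index of `Γ` contains some `K_{3k}`, and the congruence subgroup
property of `Δ` follows.
-/

set_option autoImplicit false

namespace Pool.Agent.Results.MP_af9c8b_al.CongruenceOvergroup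

open Pool.Agent.Helper886.Grig ProfiniteGrp.ProfiniteCompletion

/-- The profinite completion of the Grigorchuk group `Γ`: the inverse limit of the quotients of
`Γ` by its normal subgroups of finite index. -/
abbrev GamHat : ProfiniteGrp.{0} := completion (GrpCat.of Gam)

/-- The canonical map from the Grigorchuk group to its profinite completion. -/
abbrev can : Gam → GamHat := etaFn (GrpCat.of Gam)

/-- The congruence subgroup property of a subgroup `Δ` of a topological group `P`: every normal
subgroup of finite index of `Δ` is the intersection of `Δ` with an open normal subgroup of `P`. -/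
def HasCSP {P : Type} [Group P] [TopologicalSpace P] (Δ : Subgroup P) : Prop :=
  ∀ N : Subgroup Δ, N.Normal → N.FiniteIndex →
    ∃ M : Subgroup P, M.Normal ∧ IsOpen (M : Set P) ∧ N = M.subgroupOf Δ

/-- There is an element `g` of the profinite completion of the Grigorchuk group `Γ`, not in `Γ`,
such that `⟨Γ, g⟩` has the congruence subgroup property; one such element is the limit of the
elements `y k` of `Γ` given by `y 0 = 1` and `y (k + 1) = (1, ((z, z), (1, y k)))`, where
`z = (a c (y k)) ^ 4`. -/
theorem result :
    ∃ (y : ℕ → Gam) (g : GamHat),
      (y 0 = 1 ∧ ∀ k, (y (k + 1) : Equiv.Perm (List Bool)) =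
        pr 1 (pr (pr ((a * c * y k) ^ 4) ((a * c * y k) ^ 4)) (pr 1 (y k)))) ∧
      Filter.Tendsto (fun k => can (y k)) Filter.atTop (nhds g) ∧
      g ∉ Set.range can ∧
      HasCSP (Subgroup.closure (Set.range can ∪ {g})) := by
  refine ⟨YG, gel, ⟨rfl, fun k => ?_⟩, tendsto_gel, gel_notMem, fun N hN hf => csp N hN hf⟩
  change pr 1 (pr (pr ((a * (c * Y k)) ^ 4) ((a * (c * Y k)) ^ 4)) (pr 1 (Y k))) = _
  rw [← mul_assoc]
  rfl

end Pool.Agent.Results.MP_af9c8b_al.CongruenceOvergroup
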